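import Pool.Agent.helper52.Cox.Final

/-!
# Lattice quotients of the weak order from sorting alternating subword complexes

For every finite Coxeter system, every sorting and alternating word `Q` and every `ω`, the
subword complex equivalence on `[e, ω]` is a lattice congruence, and the Hasse diagram of the
quotient lattice is the graph of extremal increasing flips between the acyclic facets.
-/

open SubwordLattice in
/-- Let `Q` be a sorting alternating word of a finite Coxeter system and `ω` an element of the
group.  There are a lattice structure on the interval `[e, ω]` whose order is the right weak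
order, a lattice congruence `c` of it whose classes are the nonempty sets `L(I) ∩ [e, ω]` (`I` a
facet), and a bijection from the quotient lattice to the acyclic facets, sending the class of `x`
to the facet `I` with `x ∈ L(I)`, which turns the cover relations of the quotient lattice into
the extremal increasing flips. -/
theorem Pool.Agent.Results.MP_5a5888_co.SortingAlternatingQuotient.result
    {B : Type*} [Fintype B] [DecidableEq B] {M : CoxeterMatrix B} {W : Type*} [Group W]
    [Finite W] (cs : CoxeterSystem M W) (Q : List B) (ω : W)
    (hs : IsSorting cs Q) (ha : IsAlternating cs Q) :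
    ∃ (L : Lattice (WeakInterval cs ω)) (c : LatticeCon (WeakInterval cs ω))
      (e : CongruenceClasses c ≃ AcyclicFacet cs Q ω),
      (∀ x y : WeakInterval cs ω, x ≤ y ↔ WeakLE cs x.1 y.1) ∧
      (∀ x y : WeakInterval cs ω, c.r x y ↔
        ∃ I : Finset (Fin Q.length), IsFacet cs Q ω I ∧
          x.1 ∈ linearExtensions cs Q I ∧ y.1 ∈ linearExtensions cs Q I) ∧
      (∀ (x : WeakInterval cs ω) (I : AcyclicFacet cs Q ω),
        e (classOf c x) = I ↔ x.1 ∈ linearExtensions cs Q I.1) ∧
      (∀ X Y : CongruenceClasses c,
        X ⋖ Y ↔ ExtremalIncreasingFlip cs Q (e X).1 (e Y).1) :=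
  CxA.final cs Q ω hs ha
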